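import Mathlib

set_option autoImplicit false

open Filter Topology Set

namespace Pool.Agent.V1173.EX

/-- The composition of a covering map with a covering map with finite fibres is a covering map. -/
theorem covering_comp {Z X Y : Type*} [TopologicalSpace Z] [TopologicalSpace X]
    [TopologicalSpace Y] {π : Z → X} {h : X → Y} (hπ : IsCoveringMap π) (hh : IsCoveringMap h)
    (hfin : ∀ y, (h ⁻¹' {y}).Finite) : IsCoveringMap (h ∘ π) := by
  intro y₀
  obtain ⟨dI, U, hyU, hU, hhU, H, hH⟩ := hh y₀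
  have hfI : Finite (h ⁻¹' {y₀}) := (hfin y₀).to_subtype
  let s : U → (h ⁻¹' {y₀}) → X := fun y i => (H.symm (y, i)).1
  have hsmem : ∀ y i, h (s y i) ∈ U := fun y i => (H.symm (y, i)).2
  have hs : ∀ y i, h (s y i) = y.1 := by
    intro y i
    have := hH (H.symm (y, i))
    rw [Homeomorph.apply_symm_apply] at this
    exact this.symm
  have hsc : ∀ i, Continuous fun y => s y i := fun i => by
    have : Continuous fun y : U => H.symm (y, i) := by fun_prop
    exact continuous_subtype_val.comp this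
  have key := fun i => hπ (s ⟨y₀, hyU⟩ i)
  choose dJ V hxV hV hπV K hK using key
  let W : Set Y := {y | y ∈ U ∧ ∀ (hy : y ∈ U) (i : h ⁻¹' {y₀}), s ⟨y, hy⟩ i ∈ V i}
  have hWo : IsOpen W := by
    have h1 : IsOpen (⋂ i, (fun y => s y i) ⁻¹' V i) :=
      isOpen_iInter_of_finite fun i => (hV i).preimage (hsc i)
    have h2 : W = Subtype.val '' (⋂ i, (fun y => s y i) ⁻¹' V i) := by
      ext y
      constructor
      · rintro ⟨hy, hy'⟩
        exact ⟨⟨y, hy⟩, mem_iInter.mpr fun i => hy' hy i, rfl⟩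
      · rintro ⟨⟨y', hy'⟩, h3, rfl⟩
        exact ⟨hy', fun hy i => mem_iInter.mp h3 i⟩
    rw [h2]
    exact hU.isOpenMap_subtype_val _ h1
  have hWy : y₀ ∈ W := ⟨hyU, fun hy i => hxV i⟩
  have hcπ : Continuous π := hπ.continuous
  have hch : Continuous h := hh.continuous
  -- the index of a point
  have hrec : ∀ (x : X) (hx : h x ∈ U), x = s ⟨h x, hx⟩ (H ⟨x, hx⟩).2 := by
    intro x hx
    have h1 : ((⟨h x, hx⟩ : U), (H ⟨x, hx⟩).2) = H ⟨x, hx⟩ :=
      Prod.ext (Subtype.ext (hH ⟨x, hx⟩).symm) rfl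
    show x = (H.symm ((⟨h x, hx⟩ : U), (H ⟨x, hx⟩).2)).1
    rw [h1, Homeomorph.symm_apply_apply]
  let idx : ((h ∘ π) ⁻¹' W : Set Z) → (h ⁻¹' {y₀}) := fun z => (H ⟨π z.1, z.2.1⟩).2
  have hmV : ∀ z : ((h ∘ π) ⁻¹' W : Set Z), π z.1 ∈ V (idx z) := by
    intro z
    rw [hrec (π z.1) z.2.1]
    exact z.2.2 _ _
  let sg : ((h ∘ π) ⁻¹' W : Set Z) → (Σ i : h ⁻¹' {y₀}, π ⁻¹' {s ⟨y₀, hyU⟩ i}) :=
    fun z => ⟨idx z, (K (idx z) ⟨z.1, hmV z⟩).2⟩
  have hsg : ∀ (z : ((h ∘ π) ⁻¹' W : Set Z)) (i : h ⁻¹' {y₀}) (hi : idx z = i)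
      (hz : π z.1 ∈ V i), sg z = ⟨i, (K i ⟨z.1, hz⟩).2⟩ := by
    rintro z i rfl hz
    rfl
  have hidxc : Continuous idx := by
    have h1 : Continuous fun z : ((h ∘ π) ⁻¹' W : Set Z) => (⟨π z.1, z.2.1⟩ : h ⁻¹' U) :=
      (hcπ.comp continuous_subtype_val).subtype_mk _
    exact continuous_snd.comp (H.continuous.comp h1)
  have hsgc : Continuous sg := by
    rw [continuous_discrete_rng]
    rintro ⟨i, j⟩
    have h1 : IsOpen (Subtype.val '' ((fun u => (K i u).2) ⁻¹' {j}) : Set Z) :=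
      (hπV i).isOpenMap_subtype_val _
        ((isOpen_discrete {j}).preimage (continuous_snd.comp (K i).continuous))
    have h2 : sg ⁻¹' {⟨i, j⟩} = idx ⁻¹' {i} ∩
        Subtype.val ⁻¹' (Subtype.val '' ((fun u => (K i u).2) ⁻¹' {j}) : Set Z) := by
      ext z
      constructor
      · intro hz
        have hz' : sg z = ⟨i, j⟩ := hz
        have hi : idx z = i := congrArg Sigma.fst hz'
        have hz2 : π z.1 ∈ V i := hi ▸ hmV z
        refine ⟨hi, ⟨z.1, hz2⟩, ?_, rfl⟩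
        rw [hsg z i hi hz2] at hz'
        have := (Sigma.mk.inj_iff.mp hz').2
        exact eq_of_heq this
      · rintro ⟨hi, ⟨z', hz'⟩, h3, h4⟩
        have h4' : z' = z.1 := h4
        subst h4'
        show sg z = ⟨i, j⟩
        rw [hsg z i hi hz']
        have h3' : (K i ⟨z.1, hz'⟩).2 = j := h3
        rw [h3']
    rw [h2]
    exact ((isOpen_discrete {i}).preimage hidxc).inter (h1.preimage continuous_subtype_val)
  have hinvπ : ∀ (w : W × (Σ i : h ⁻¹' {y₀}, π ⁻¹' {s ⟨y₀, hyU⟩ i})),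
      π ((K w.2.1).symm (⟨s ⟨w.1.1, w.1.2.1⟩ w.2.1, w.1.2.2 _ _⟩, w.2.2)).1 =
        s ⟨w.1.1, w.1.2.1⟩ w.2.1 := by
    intro w
    rw [← hK, Homeomorph.apply_symm_apply]
  have hinvW : ∀ (w : W × (Σ i : h ⁻¹' {y₀}, π ⁻¹' {s ⟨y₀, hyU⟩ i})),
      (h ∘ π) ((K w.2.1).symm (⟨s ⟨w.1.1, w.1.2.1⟩ w.2.1, w.1.2.2 _ _⟩, w.2.2)).1 = w.1.1 := by
    intro w
    rw [Function.comp_apply, hinvπ, hs]
  let G : ((h ∘ π) ⁻¹' W : Set Z) ≃ₜ W × (Σ i : h ⁻¹' {y₀}, π ⁻¹' {s ⟨y₀, hyU⟩ i}) :=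
    { toFun := fun z => (⟨h (π z.1), z.2⟩, sg z)
      invFun := fun w => ⟨((K w.2.1).symm (⟨s ⟨w.1.1, w.1.2.1⟩ w.2.1, w.1.2.2 _ _⟩, w.2.2)).1, by
        rw [mem_preimage, hinvW]
        exact w.1.2⟩
      left_inv := by
        intro z
        apply Subtype.ext
        show ((K (idx z)).symm (⟨s ⟨h (π z.1), _⟩ (idx z), _⟩, (K (idx z) ⟨z.1, hmV z⟩).2)).1 = z.1
        have h1 : ((⟨s ⟨h (π z.1), z.2.1⟩ (idx z), z.2.2 _ _⟩ : V (idx z)),
            (K (idx z) ⟨z.1, hmV z⟩).2) = K (idx z) ⟨z.1, hmV z⟩ := by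
          refine Prod.ext (Subtype.ext ?_) rfl
          rw [hK]
          exact (hrec (π z.1) z.2.1).symm
        rw [h1, Homeomorph.symm_apply_apply]
      right_inv := by
        rintro ⟨y, i, j⟩
        have e1 := hinvπ (y, ⟨i, j⟩)
        have e2 := hinvW (y, ⟨i, j⟩)
        refine Prod.ext (Subtype.ext e2) ?_
        set z : ((h ∘ π) ⁻¹' W : Set Z) :=
          ⟨((K i).symm (⟨s ⟨y.1, y.2.1⟩ i, y.2.2 _ _⟩, j)).1, by
            rw [mem_preimage]
            exact (congrArg (fun t => t ∈ W) e2).mpr y.2⟩ with hz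
        show sg z = ⟨i, j⟩
        have h1 : (⟨π z.1, z.2.1⟩ : h ⁻¹' U) = H.symm (⟨y.1, y.2.1⟩, i) := Subtype.ext e1
        have h2 : idx z = i := by
          show (H ⟨π z.1, z.2.1⟩).2 = i
          rw [h1, Homeomorph.apply_symm_apply]
        have h3 : π z.1 ∈ V i := h2 ▸ hmV z
        rw [hsg z i h2 h3]
        have h4 : (⟨z.1, h3⟩ : π ⁻¹' V i) =
            (K i).symm (⟨s ⟨y.1, y.2.1⟩ i, y.2.2 _ _⟩, j) := Subtype.ext rfl
        rw [h4, Homeomorph.apply_symm_apply]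
      continuous_toFun :=
        ((hch.comp (hcπ.comp continuous_subtype_val)).subtype_mk _).prodMk hsgc
      continuous_invFun := by
        refine Continuous.subtype_mk ?_ _
        rw [continuous_prod_of_discrete_right]
        rintro ⟨i, j⟩
        have h1 : Continuous fun y : W => s ⟨y.1, y.2.1⟩ i :=
          (hsc i).comp (continuous_subtype_val.subtype_mk _)
        exact continuous_subtype_val.comp
          ((K i).symm.continuous.comp ((h1.subtype_mk _).prodMk continuous_const)) }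
  refine IsEvenlyCovered.to_isEvenlyCovered_preimage
    (I := Σ i : h ⁻¹' {y₀}, π ⁻¹' {s ⟨y₀, hyU⟩ i}) ?_
  exact ⟨inferInstance, W, hWy, hWo, hWo.preimage (hch.comp hcπ), G, fun z => rfl⟩

end Pool.Agent.V1173.EX
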