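import Pool.Agent.V1173.EX.Univ
import Pool.Agent.Y331.EP.Fin

set_option autoImplicit false

open Filter Topology Set Metric
open scoped Manifold ContDiff

namespace Pool.Agent.V1173.EX

open Pool.Agent.H721R2 Pool.Agent.H789R2.AN
open Pool.Agent.TH289 Pool.Agent.TH289.K Pool.Agent.TH289.L

variable {E : Type*} [NormedAddCommGroup E] [NormedSpace ℝ E] [FiniteDimensional ℝ E]

universe u

variable {M : Type u} [MetricSpace M] [CompactSpace M] [ConnectedSpace M]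
    [ChartedSpace E M] [IsManifold 𝓘(ℝ, E) ∞ M]

/-- entropy rigidity for expansive factors -/
theorem all {E' : Type*} [NormedAddCommGroup E'] [NormedSpace ℝ E']
    [FiniteDimensional ℝ E'] {M' : Type*} [MetricSpace M'] [CompactSpace M']
    [ConnectedSpace M'] [ChartedSpace E' M']
    (f : Diffeomorph 𝓘(ℝ, E) 𝓘(ℝ, E) M M 1)
    (Es Eu : ∀ x : M, Submodule ℝ (TangentSpace 𝓘(ℝ, E) x)) (hA : IsAnosov f Es Eu)
    (hG : GPS f.toHomeomorph) (g : M' ≃ₜ M')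
    (hdim : Module.finrank ℝ E' ≤ Module.finrank ℝ E)
    (h : M → M') (hc : Continuous h) (hh : ∀ x, h (f x) = g (h x)) :
    List.TFAE [Function.Surjective h ∧ Expansive g ∧
        Dynamics.coverEntropy f univ ≤ Dynamics.coverEntropy g univ,
      Function.Surjective h ∧ Expansive g ∧
        ∃ C : ℕ, ∃ᶠ n in atTop, {x | f^[n] x = x}.ncard ≤ C * {y | g^[n] y = y}.ncard,
      Function.Surjective h ∧ Expansive g ∧ ∀ y, (h ⁻¹' {y}).Countable,
      Function.Surjective h ∧ Expansive g ∧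
        ∀ x y, h x = h y → Asym f x y → Asym f.symm x y → x = y,
      Expansive g ∧ ∃ p ∈ Function.periodicPts f,
        (h ⁻¹' {h p} ∩ {y | Asym f p y}).Finite ∨ (h ⁻¹' {h p} ∩ {y | Asym f.symm p y}).Finite,
      ∀ x, ∃ U ∈ 𝓝 x, InjOn h U,
      IsCoveringMap h,
      IsCoveringMap h ∧ Function.Surjective h ∧ (∀ y, (h ⁻¹' {y}).Finite) ∧ Expansive g ∧
        TopTransitive g ∧ GPS g ∧ Module.finrank ℝ E' = Module.finrank ℝ E ∧
        ∃ q : E' → M', IsCoveringMap q ∧ Function.Surjective q] := by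
  have k1 := main_ex f Es Eu hA hG g h hc hh hdim
  have kf := fun (hs : Function.Surjective h) (hg : Expansive g) =>
    Pool.Agent.Y331.EP.man_factor f Es Eu hA hG g hg hdim h hc hs hh
  tfae_have 1 → 7 := fun ⟨hs, hg, H⟩ => ((kf hs hg).out 0 4).1 H
  tfae_have 2 → 7 := fun ⟨hs, hg, H⟩ => ((kf hs hg).out 1 4).1 H
  tfae_have 3 → 7 := fun ⟨hs, hg, H⟩ => ((kf hs hg).out 2 4).1 H
  tfae_have 4 → 7 := fun ⟨hs, hg, H⟩ => ((kf hs hg).out 3 4).1 H
  tfae_have 5 → 7 := fun H => (k1.out 0 3).1 H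
  tfae_have 6 → 7 := fun H => (k1.out 2 3).1 H
  tfae_have 7 → 8 := by
    intro H
    have h5 := (k1.out 3 4).1 H
    have h0 := (k1.out 3 0).1 H
    obtain ⟨a1, a2, -⟩ := univ_cover f Es Eu hA hG g h hc hh hdim h0.1 h0.2
    exact ⟨h5.1, h5.2.1, h5.2.2.1, h5.2.2.2.1, h5.2.2.2.2.1, h5.2.2.2.2.2, a1, a2⟩
  tfae_have 8 → 1 := fun H => ⟨H.2.1, H.2.2.2.1, ((kf H.2.1 H.2.2.2.1).out 4 0).1 H.1⟩
  tfae_have 8 → 2 := fun H => ⟨H.2.1, H.2.2.2.1, ((kf H.2.1 H.2.2.2.1).out 4 1).1 H.1⟩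
  tfae_have 8 → 3 := fun H => ⟨H.2.1, H.2.2.2.1, ((kf H.2.1 H.2.2.2.1).out 4 2).1 H.1⟩
  tfae_have 8 → 4 := fun H => ⟨H.2.1, H.2.2.2.1, ((kf H.2.1 H.2.2.2.1).out 4 3).1 H.1⟩
  tfae_have 8 → 5 := fun H => (k1.out 3 0).1 H.1
  tfae_have 8 → 6 := fun H => (k1.out 3 2).1 H.1
  tfae_finish

end Pool.Agent.V1173.EX
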