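import Pool.Agent.TH289.L.P3

set_option autoImplicit false

open Filter Topology Set Metric
open scoped Manifold ContDiff

namespace Pool.Agent.V1173.EX

open Pool.Agent.H721R2 Pool.Agent.H789R2.AN Pool.Agent.H789R2.GP
open Pool.Agent.TH289 Pool.Agent.TH289.K Pool.Agent.TH289.L

/-- uniform openness -/
theorem unif_open {X Y : Type*} [MetricSpace X] [CompactSpace X] [MetricSpace Y] {h : X → Y}
    (hc : Continuous h) (ho : IsOpenMap h) {η : ℝ} (hη : 0 < η) :
    ∃ ε > 0, ∀ (x : X) (y' : Y), dist (h x) y' < ε → ∃ y, h y = y' ∧ dist x y < η := by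
  have key : ∃ ε > 0, ∀ x ∈ (univ : Set X), ∀ (y' : Y), dist (h x) y' < ε →
      ∃ y, h y = y' ∧ dist x y < η := by
    refine isCompact_univ.induction_on (p := fun s => ∃ ε > 0, ∀ x ∈ s, ∀ (y' : Y),
      dist (h x) y' < ε → ∃ y, h y = y' ∧ dist x y < η) ⟨1, one_pos, fun x hx => hx.elim⟩ ?_ ?_ ?_
    · rintro s t hst ⟨ε, hε, H⟩
      exact ⟨ε, hε, fun x hx => H x (hst hx)⟩
    · rintro s t ⟨ε, hε, H⟩ ⟨ε', hε', H'⟩
      refine ⟨min ε ε', lt_min hε hε', fun x hx y' hy => ?_⟩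
      rcases hx with hx | hx
      · exact H x hx y' (hy.trans_le (min_le_left _ _))
      · exact H' x hx y' (hy.trans_le (min_le_right _ _))
    · intro x _
      have h1 : h '' ball x (η / 2) ∈ 𝓝 (h x) :=
        (ho _ isOpen_ball).mem_nhds ⟨x, mem_ball_self (half_pos hη), rfl⟩
      obtain ⟨ε, hε, h2⟩ := Metric.mem_nhds_iff.mp h1
      have h3 : h ⁻¹' ball (h x) (ε / 2) ∈ 𝓝 x :=
        hc.continuousAt.preimage_mem_nhds (ball_mem_nhds _ (half_pos hε))
      refine ⟨h ⁻¹' ball (h x) (ε / 2) ∩ ball x (η / 2),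
        mem_nhdsWithin_of_mem_nhds (inter_mem h3 (ball_mem_nhds _ (half_pos hη))),
        ε / 2, half_pos hε, ?_⟩
      rintro z ⟨hz1, hz2⟩ y' hy'
      have h4 : y' ∈ ball (h x) ε := by
        rw [mem_ball]
        have := dist_triangle_left y' (h x) (h z)
        rw [mem_preimage, mem_ball] at hz1
        linarith
      obtain ⟨y, hy, rfl⟩ := h2 h4
      refine ⟨y, rfl, ?_⟩
      rw [mem_ball] at hy hz2
      have := dist_triangle_right z y x
      linarith
  obtain ⟨ε, hε, H⟩ := key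
  exact ⟨ε, hε, fun x => H x (mem_univ x)⟩

/-- uniform local injectivity -/
theorem unif_inj {X Y : Type*} [MetricSpace X] [CompactSpace X] {h : X → Y}
    (h4 : ∀ x, ∃ U ∈ 𝓝 x, InjOn h U) : ∃ δ > 0, ∀ x y, dist x y < δ → h x = h y → x = y := by
  have hcomp : IsCompact (univ : Set X) := isCompact_univ
  obtain ⟨δ, hδ, hleb⟩ := lebesgue_number_lemma_of_metric hcomp
    (c := fun x : X => interior (h4 x).choose) (fun x => isOpen_interior)
    (fun x _ => mem_iUnion.mpr ⟨x, mem_interior_iff_mem_nhds.mpr (h4 x).choose_spec.1⟩)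
  refine ⟨δ, hδ, fun x y hxy he => ?_⟩
  obtain ⟨i, hi⟩ := hleb x (mem_univ x)
  exact (h4 i).choose_spec.2 (interior_subset (hi (mem_ball_self hδ)))
    (interior_subset (hi (by rw [mem_ball, dist_comm]; exact hxy))) he

theorem step_close {X Y : Type*} [MetricSpace X] [MetricSpace Y] {f : X → X}
    {g : Y → Y} {h : X → Y} (hh : ∀ x, h (f x) = g (h x)) {δ η ε : ℝ}
    (hδ : ∀ x y, dist x y < δ → h x = h y → x = y) (hηδ : η ≤ δ / 2)
    (hf : ∀ x y, dist x y < η → dist (f x) (f y) < δ / 2)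
    (hε : ∀ (x : X) (y' : Y), dist (h x) y' < ε → ∃ y, h y = y' ∧ dist x y < η)
    {x y : X} (hxy : dist x y < η) (hc : ∀ n : ℕ, dist (g^[n] (h x)) (g^[n] (h y)) < ε) (n : ℕ) :
    dist (f^[n] x) (f^[n] y) < η := by
  have hn : ∀ (n : ℕ) (z : X), h (f^[n] z) = g^[n] (h z) := fun n z =>
    (Function.Semiconj.iterate_right (f := h) (ga := f) (gb := g) hh n) z
  induction n with
  | zero => simpa using hxy
  | succ n ih =>
    have h1 := hf _ _ ih
    rw [← Function.iterate_succ_apply' f, ← Function.iterate_succ_apply' f] at h1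
    obtain ⟨z, hz1, hz2⟩ := hε (f^[n + 1] x) (g^[n + 1] (h y)) (by
      rw [hn]
      exact hc (n + 1))
    have h2 : z = f^[n + 1] y := by
      refine hδ _ _ ?_ (by rw [hz1, hn])
      have := dist_triangle_left z (f^[n + 1] y) (f^[n + 1] x)
      linarith
    rw [← h2]
    exact hz2

/-- finite quotients of expansive homeomorphisms are expansive -/
theorem expansive_quot {X Y : Type*} [MetricSpace X] [CompactSpace X] [MetricSpace Y]
    [CompactSpace Y] {f : X ≃ₜ X} {g : Y ≃ₜ Y} {h : X → Y} (hc : Continuous h) (ho : IsOpenMap h)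
    (hs : Function.Surjective h) (hloc : ∀ x, ∃ U ∈ 𝓝 x, InjOn h U)
    (hh : ∀ x, h (f x) = g (h x)) (hf : Expansive f) : Expansive g := by
  obtain ⟨𝒰, h𝒰, h1⟩ := hf
  rw [nhdsSet_diagonal_eq_uniformity, Metric.mem_uniformity_dist] at h𝒰
  obtain ⟨e, he, h2⟩ := h𝒰
  obtain ⟨δ, hδ, h3⟩ := unif_inj hloc
  have hfu : UniformContinuous f := CompactSpace.uniformContinuous_of_continuous f.continuous
  have hfu' : UniformContinuous f.symm :=
    CompactSpace.uniformContinuous_of_continuous f.symm.continuous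
  rw [Metric.uniformContinuous_iff] at hfu hfu'
  obtain ⟨η₁, hη₁, h4⟩ := hfu (δ / 2) (half_pos hδ)
  obtain ⟨η₂, hη₂, h5⟩ := hfu' (δ / 2) (half_pos hδ)
  set η := min (min η₁ η₂) (min (δ / 2) e) with hη
  have hη0 : 0 < η := lt_min (lt_min hη₁ hη₂) (lt_min (half_pos hδ) he)
  have e1 : η ≤ η₁ := (min_le_left _ _).trans (min_le_left _ _)
  have e2 : η ≤ η₂ := (min_le_left _ _).trans (min_le_right _ _)
  have e3 : η ≤ δ / 2 := (min_le_right _ _).trans (min_le_left _ _)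
  have e4 : η ≤ e := (min_le_right _ _).trans (min_le_right _ _)
  obtain ⟨ε, hε, h6⟩ := unif_open hc ho hη0
  have hh' : ∀ x, h (f.symm x) = g.symm (h x) := by
    intro x
    apply g.injective
    rw [← hh, f.apply_symm_apply, g.apply_symm_apply]
  refine ⟨{q | dist q.1 q.2 < ε}, ?_, fun x' y' hxy => ?_⟩
  · rw [nhdsSet_diagonal_eq_uniformity]
    exact Metric.dist_mem_uniformity hε
  · obtain ⟨x, rfl⟩ := hs x'
    obtain ⟨y, rfl, hy⟩ := h6 x y' (by simpa using (hxy 0).1)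
    have k1 := step_close (f := f) (g := g) hh h3 e3 (fun a b hab => h4 (hab.trans_le e1)) h6 hy
      (fun n => (hxy n).1)
    have k2 := step_close (f := f.symm) (g := g.symm) hh' h3 e3
      (fun a b hab => h5 (hab.trans_le e2)) h6 hy (fun n => (hxy n).2)
    have k3 := h1 x y fun n => ⟨h2 ((k1 n).trans_le e4), h2 ((k2 n).trans_le e4)⟩
    rw [k3]

section manifold

variable {E : Type*} [NormedAddCommGroup E] [NormedSpace ℝ E] [FiniteDimensional ℝ E]
  {M : Type*} [TopologicalSpace M] [T2Space M] [CompactSpace M] [ConnectedSpace M]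
  [ChartedSpace E M] [IsManifold 𝓘(ℝ, E) ∞ M]
  {E' : Type*} [NormedAddCommGroup E'] [NormedSpace ℝ E'] [FiniteDimensional ℝ E']
  {M' : Type*} [TopologicalSpace M'] [T2Space M'] [CompactSpace M'] [ConnectedSpace M']
  [ChartedSpace E' M']

/-- locally injective semiconjugacies from Anosov diffeomorphisms with global product structure -/
theorem of_locInj (f : Diffeomorph 𝓘(ℝ, E) 𝓘(ℝ, E) M M 1)
    (Es Eu : ∀ x : M, Submodule ℝ (TangentSpace 𝓘(ℝ, E) x)) (hA : IsAnosov f Es Eu)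
    (hG : GPS f.toHomeomorph) (g : M' ≃ₜ M') (h : M → M') (hc : Continuous h)
    (hh : ∀ x, h (f x) = g (h x)) (hdim : Module.finrank ℝ E' ≤ Module.finrank ℝ E)
    (h4 : ∀ x, ∃ U ∈ 𝓝 x, InjOn h U) :
    IsCoveringMap h ∧ Function.Surjective h ∧ (∀ y, (h ⁻¹' {y}).Finite) ∧ Expansive g ∧
      TopTransitive g ∧ GPS g := by
  have hmet : TopologicalSpace.MetrizableSpace M' := Manifold.metrizableSpace 𝓘(ℝ, E') M'
  obtain ⟨k1, k2, k3⟩ := Pool.Agent.TH553.K289.covering_of_locInj hdim hc h4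
  obtain ⟨m, ee, hee, hemb, hinje⟩ :=
    exists_embedding_euclidean_of_compact (I := 𝓘(ℝ, E)) (M := M)
  let _ : MetricSpace M := hemb.isEmbedding.comapMetricSpace ee
  let _ : MetricSpace M' := TopologicalSpace.metrizableSpaceMetric M'
  exact ⟨k1, k2, k3, expansive_quot (f := f.toHomeomorph) hc k1.isOpenMap k2 h4 hh
    (expansive_of_anosov f Es Eu hA), trans_factor hc k2 hh (man_self f Es Eu hA hG).1,
    gps_of_cover (f := f.toHomeomorph) k1 k2 (unif_inj h4) hh hG⟩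

theorem locInj_of_cov {X Y : Type*} [TopologicalSpace X] [TopologicalSpace Y] {h : X → Y}
    (hcov : IsCoveringMap h) : ∀ x, ∃ U ∈ 𝓝 x, InjOn h U := by
  intro x
  obtain ⟨e, hx, he⟩ := hcov.isLocalHomeomorph x
  refine ⟨e.source, e.open_source.mem_nhds hx, ?_⟩
  rw [he]
  exact e.injOn

/-- **Expansive factors of Anosov diffeomorphisms with global product structure.** -/
theorem main (f : Diffeomorph 𝓘(ℝ, E) 𝓘(ℝ, E) M M 1)
    (Es Eu : ∀ x : M, Submodule ℝ (TangentSpace 𝓘(ℝ, E) x)) (hA : IsAnosov f Es Eu)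
    (hG : GPS f.toHomeomorph) (g : M' ≃ₜ M') (h : M → M') (hc : Continuous h)
    (hh : ∀ x, h (f x) = g (h x)) (hdim : Module.finrank ℝ E' ≤ Module.finrank ℝ E) {p : M}
    (hp : p ∈ Function.periodicPts f) :
    List.TFAE [Expansive g ∧ ((h ⁻¹' {h p} ∩ {y | Asym f p y}).Finite ∨
        (h ⁻¹' {h p} ∩ {y | Asym f.symm p y}).Finite),
      Expansive g ∧ ∀ y, (h ⁻¹' {y}).Finite,
      ∀ x, ∃ U ∈ 𝓝 x, InjOn h U,
      IsCoveringMap h,
      IsCoveringMap h ∧ Function.Surjective h ∧ (∀ y, (h ⁻¹' {y}).Finite) ∧ Expansive g ∧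
        TopTransitive g ∧ GPS g] := by
  tfae_have 1 → 4 := fun H =>
    (man_exp_one_cover f Es Eu hA hG g H.1 h hc hh hp H.2 hdim).1
  tfae_have 4 → 3 := fun H => locInj_of_cov H
  tfae_have 3 → 5 := fun H => of_locInj f Es Eu hA hG g h hc hh hdim H
  tfae_have 5 → 2 := fun H => ⟨H.2.2.2.1, H.2.2.1⟩
  tfae_have 2 → 1 := fun H => ⟨H.1, Or.inl ((H.2 _).subset inter_subset_left)⟩
  tfae_finish

/-- an Anosov diffeomorphism has a periodic point -/
theorem exists_per (f : Diffeomorph 𝓘(ℝ, E) 𝓘(ℝ, E) M M 1)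
    (Es Eu : ∀ x : M, Submodule ℝ (TangentSpace 𝓘(ℝ, E) x)) (hA : IsAnosov f Es Eu) :
    ∃ p, p ∈ Function.periodicPts f := by
  obtain ⟨m, ee, hee, hemb, hinje⟩ :=
    exists_embedding_euclidean_of_compact (I := 𝓘(ℝ, E)) (M := M)
  let _ : MetricSpace M := hemb.isEmbedding.comapMetricSpace ee
  have hiso : ∀ x y : M, dist x y = ‖ee x - ee y‖ := fun x y => dist_eq_norm (ee x) (ee y)
  have he1 : ContMDiff 𝓘(ℝ, E) (𝓡 m) 1 ee := hee.of_le (by simp)
  obtain ⟨N, ⟨S, hgS, -, -, -⟩, hN⟩ :=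
    ((exists_sys_ev hiso he1 hinje f Es Eu hA).and (eventually_ge_atTop 1)).exists
  have : ProperSpace E := FiniteDimensional.proper_real E
  obtain ⟨q, hq, p, hp⟩ := S.exists_periodic
  refine ⟨p, Function.mk_mem_periodicPts (n := N * q) (by positivity) ?_⟩
  rw [hgS, iterHomeo_iter] at hp
  exact hp

/-- **Expansive factors of Anosov diffeomorphisms with global product structure.** -/
theorem main_ex (f : Diffeomorph 𝓘(ℝ, E) 𝓘(ℝ, E) M M 1)
    (Es Eu : ∀ x : M, Submodule ℝ (TangentSpace 𝓘(ℝ, E) x)) (hA : IsAnosov f Es Eu)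
    (hG : GPS f.toHomeomorph) (g : M' ≃ₜ M') (h : M → M') (hc : Continuous h)
    (hh : ∀ x, h (f x) = g (h x)) (hdim : Module.finrank ℝ E' ≤ Module.finrank ℝ E) :
    List.TFAE [Expansive g ∧ ∃ p ∈ Function.periodicPts f,
        (h ⁻¹' {h p} ∩ {y | Asym f p y}).Finite ∨ (h ⁻¹' {h p} ∩ {y | Asym f.symm p y}).Finite,
      Expansive g ∧ ∀ y, (h ⁻¹' {y}).Finite,
      ∀ x, ∃ U ∈ 𝓝 x, InjOn h U,
      IsCoveringMap h,
      IsCoveringMap h ∧ Function.Surjective h ∧ (∀ y, (h ⁻¹' {y}).Finite) ∧ Expansive g ∧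
        TopTransitive g ∧ GPS g] := by
  tfae_have 1 → 4 := by
    rintro ⟨h1, p, hp, h2⟩
    exact (man_exp_one_cover f Es Eu hA hG g h1 h hc hh hp h2 hdim).1
  tfae_have 4 → 3 := fun H => locInj_of_cov H
  tfae_have 3 → 5 := fun H => of_locInj f Es Eu hA hG g h hc hh hdim H
  tfae_have 5 → 2 := fun H => ⟨H.2.2.2.1, H.2.2.1⟩
  tfae_have 2 → 1 := by
    rintro ⟨h1, h2⟩
    obtain ⟨p, hp⟩ := exists_per f Es Eu hA
    exact ⟨h1, p, hp, Or.inl ((h2 _).subset inter_subset_left)⟩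
  tfae_finish

end manifold

end Pool.Agent.V1173.EX
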