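import Pool.Agent.V1173.EX.Cov
import Pool.Agent.V1173.EX.Comp

set_option autoImplicit false

open Filter Topology Set Metric
open scoped Manifold ContDiff

namespace Pool.Agent.V1173.EX

open Pool.Agent.H721R2 Pool.Agent.H789R2.AN Pool.Agent.H789R2.GP
open Pool.Agent.TH289 Pool.Agent.TH289.K Pool.Agent.TH289.L

/-- a locally injective continuous map does not lower the dimension of manifolds -/
theorem dim_le_of_locInj {E : Type*} [NormedAddCommGroup E] [NormedSpace ℝ E]
    [FiniteDimensional ℝ E] {M : Type*} [TopologicalSpace M] [ChartedSpace E M]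
    {E' : Type*} [NormedAddCommGroup E'] [NormedSpace ℝ E'] [FiniteDimensional ℝ E']
    {M' : Type*} [TopologicalSpace M'] [ChartedSpace E' M'] {h : M → M'} (hc : Continuous h)
    {x : M} {U : Set M} (hU : U ∈ 𝓝 x) (hinj : InjOn h U) :
    Module.finrank ℝ E ≤ Module.finrank ℝ E' := by
  obtain ⟨e, he⟩ : ∃ e, e = chartAt E x := ⟨_, rfl⟩
  obtain ⟨e', he'⟩ : ∃ e', e' = chartAt E' (h x) := ⟨_, rfl⟩
  have hxe : x ∈ e.source := by rw [he]; exact mem_chart_source E x
  have hxe' : h x ∈ e'.source := by rw [he']; exact mem_chart_source E' (h x)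
  obtain ⟨S, hS⟩ : ∃ S, S = U ∩ h ⁻¹' e'.source := ⟨_, rfl⟩
  have hSx : S ∈ 𝓝 x := by
    rw [hS]
    exact inter_mem hU (hc.continuousAt.preimage_mem_nhds (e'.open_source.mem_nhds hxe'))
  have hSU : S ⊆ U := fun m hm => by rw [hS] at hm; exact hm.1
  have hSe : ∀ m ∈ S, h m ∈ e'.source := fun m hm => by rw [hS] at hm; exact hm.2
  have hA : e.target ∩ e.symm ⁻¹' S ∈ 𝓝 (e x) := by
    refine inter_mem (e.open_target.mem_nhds (e.map_source hxe)) ?_
    have h1 : ContinuousAt e.symm (e x) := e.continuousAt_symm (e.map_source hxe)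
    apply h1.preimage_mem_nhds
    rw [e.left_inv hxe]
    exact hSx
  have hcont : ContinuousOn (fun v => e' (h (e.symm v))) (e.target ∩ e.symm ⁻¹' S) := by
    refine e'.continuousOn.comp (t := e'.source) ?_ ?_
    · exact hc.comp_continuousOn (e.symm.continuousOn.mono inter_subset_left)
    · intro v hv; exact hSe _ hv.2
  have hinj' : InjOn (fun v => e' (h (e.symm v))) (e.target ∩ e.symm ⁻¹' S) := by
    intro a ha b hb hab
    have h1 : h (e.symm a) = h (e.symm b) := e'.injOn (hSe _ ha.2) (hSe _ hb.2) hab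
    have h2 := hinj (hSU ha.2) (hSU hb.2) h1
    exact e.symm.injOn ha.1 hb.1 h2
  exact Pool.Agent.W964.LieExp.finrank_le_of_injOn (interior (e.target ∩ e.symm ⁻¹' S))
      isOpen_interior (e x) (mem_interior_iff_mem_nhds.2 hA) _ (hcont.mono interior_subset)
      (hinj'.mono interior_subset)

section manifold

variable {E : Type*} [NormedAddCommGroup E] [NormedSpace ℝ E] [FiniteDimensional ℝ E]
  {M : Type*} [TopologicalSpace M] [T2Space M] [CompactSpace M] [ConnectedSpace M]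
  [ChartedSpace E M] [IsManifold 𝓘(ℝ, E) ∞ M]
  {E' : Type*} [NormedAddCommGroup E'] [NormedSpace ℝ E'] [FiniteDimensional ℝ E']
  {M' : Type*} [TopologicalSpace M'] [T2Space M'] [CompactSpace M'] [ConnectedSpace M']
  [ChartedSpace E' M']

/-- the universal covers of expansive factors -/
theorem univ_cover (f : Diffeomorph 𝓘(ℝ, E) 𝓘(ℝ, E) M M 1)
    (Es Eu : ∀ x : M, Submodule ℝ (TangentSpace 𝓘(ℝ, E) x)) (hA : IsAnosov f Es Eu)
    (hG : GPS f.toHomeomorph) (g : M' ≃ₜ M') (h : M → M') (hc : Continuous h)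
    (hh : ∀ x, h (f x) = g (h x)) (hdim : Module.finrank ℝ E' ≤ Module.finrank ℝ E)
    (hg : Expansive g) (hp : ∃ p ∈ Function.periodicPts f,
      (h ⁻¹' {h p} ∩ {y | Asym f p y}).Finite ∨ (h ⁻¹' {h p} ∩ {y | Asym f.symm p y}).Finite) :
    Module.finrank ℝ E' = Module.finrank ℝ E ∧ (∃ q : E' → M', IsCoveringMap q ∧
      Function.Surjective q) ∧ IsCoveringMap h ∧ Function.Surjective h ∧
      (∀ y, (h ⁻¹' {y}).Finite) ∧ TopTransitive g ∧ GPS g := by
  have h5 := (main_ex f Es Eu hA hG g h hc hh hdim).out 0 4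
  obtain ⟨k1, k2, k3, -, k5, k6⟩ := h5.mp ⟨hg, hp⟩
  have x₀ : M := Classical.arbitrary M
  obtain ⟨U, hU, hinj⟩ := locInj_of_cov k1 x₀
  have hd := le_antisymm hdim (dim_le_of_locInj (E := E) (E' := E') hc hU hinj)
  refine ⟨hd, ?_, k1, k2, k3, k5, k6⟩
  obtain ⟨-, π, hπ, hπs⟩ := man_self f Es Eu hA hG
  let L : E' ≃L[ℝ] E := ContinuousLinearEquiv.ofFinrankEq hd
  refine ⟨(h ∘ π) ∘ L.toHomeomorph, (covering_comp hπ k1 k3).comp_homeomorph L.toHomeomorph, ?_⟩
  exact (k2.comp hπs).comp L.toHomeomorph.surjective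

end manifold

end Pool.Agent.V1173.EX
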